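import Pool.Agent.Q144.PSh

/-!
# Relative hidden-set characterization of polyhedric convex sets

A set `C` hides a set `A` if for every pair of distinct points `a, b` of `A` the segment
`conv {a, b}` meets `C`.  A subset `C` of `D'` is polyhedric in `D'` if it is the intersection of
finitely many sets `H 1, ..., H n` contained in `D'` such that each `H i` and each `D' \ H i` is
convex.

For closed convex sets `C ⊆ D` in a complete linear metric space, `C` hides no infinite subset of
`D \ C` if and only if `C` is polyhedric in `D ∩ aff C`.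
-/

namespace Pool.Agent.Results.MP_ec84ce_an.Polyhedricity

/-- `C` hides `A`: the segment between any two distinct points of `A` meets `C`. -/
def Hides {X : Type*} [AddCommGroup X] [Module ℝ X] (C A : Set X) : Prop :=
  ∀ a ∈ A, ∀ b ∈ A, a ≠ b → (convexHull ℝ {a, b} ∩ C).Nonempty

/-- `C` is polyhedric in `D'`. -/
def PolyhedricIn {X : Type*} [AddCommGroup X] [Module ℝ X] (C D' : Set X) : Prop :=
  ∃ (n : ℕ) (H : Fin n → Set X), 0 < n ∧ (∀ i, H i ⊆ D') ∧ C = ⋂ i, H i ∧
    ∀ i, Convex ℝ (H i) ∧ Convex ℝ (D' \ H i)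

theorem result {X : Type*} [AddCommGroup X] [Module ℝ X] [MetricSpace X] [CompleteSpace X]
    [IsTopologicalAddGroup X] [ContinuousSMul ℝ X] {C D : Set X} (hC : IsClosed C)
    (hCconv : Convex ℝ C) (_hD : IsClosed D) (hDconv : Convex ℝ D) (hCD : C ⊆ D) :
    (¬ ∃ A : Set X, A.Infinite ∧ A ⊆ D \ C ∧ Hides C A) ↔
      PolyhedricIn C (D ∩ (affineSpan ℝ C : Set X)) := by
  have e : (∃ A : Set X, A.Infinite ∧ A ⊆ D \ C ∧ Hides C A) ↔ Q144.PS.InfH C D := by
    constructor
    · rintro ⟨A, h1, h2, h3⟩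
      refine ⟨A, h1, h2, fun a ha b hb hne => ?_⟩
      obtain ⟨z, hz, hzC⟩ := h3 a ha b hb hne
      rw [convexHull_pair] at hz
      exact ⟨z, hz, hzC⟩
    · rintro ⟨A, h1, h2, h3⟩
      refine ⟨A, h1, h2, fun a ha b hb hne => ?_⟩
      obtain ⟨z, hz, hzC⟩ := h3 a ha b hb hne
      refine ⟨z, ?_, hzC⟩
      rw [convexHull_pair]
      exact hz
  rw [e]
  constructor
  · exact Q144.PS.forward hC hCconv hDconv hCD
  · rintro ⟨n, H, -, -, h1, h2⟩
    exact Q144.PS.backward h1 (fun i => (h2 i).2)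

end Pool.Agent.Results.MP_ec84ce_an.Polyhedricity
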